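import Mathlib

/-!
# Burnside's theorem and subspaces defined over a subfield of the complex numbers
-/

set_option linter.unusedSectionVars false

namespace Pool.Agent.Q69.KP

open Matrix

section burnside

variable {k : Type*} [Field k] [IsAlgClosed k] {V : Type*} [AddCommGroup V] [Module k V]
  [FiniteDimensional k V]

/-- Burnside's theorem: an algebra of operators without invariant subspaces is everything. -/
theorem burnside [Nontrivial V] (𝒜 : Subalgebra k (Module.End k V))
    (h : ∀ N : Submodule k V, (∀ a ∈ 𝒜, ∀ x ∈ N, a x ∈ N) → N = ⊥ ∨ N = ⊤) : 𝒜 = ⊤ := by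
  classical
  have hsmul : ∀ (a : 𝒜) (x : V), a • x = (a : Module.End k V) x := fun a x => rfl
  have : IsSimpleOrder (Submodule 𝒜 V) :=
    { exists_pair_ne := ⟨⊥, ⊤, bot_ne_top⟩
      eq_bot_or_eq_top := by
        intro N
        rcases h (N.restrictScalars k) (fun a ha x hx => by
          have := N.smul_mem (⟨a, ha⟩ : 𝒜) hx
          exact this) with h1 | h1
        · left
          exact (Submodule.restrictScalars_eq_bot_iff _ _ _).1 h1
        · right
          exact (Submodule.restrictScalars_eq_top_iff _ _ _).1 h1 }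
  have : IsSimpleModule 𝒜 V := ⟨⟩
  have hb := IsSimpleModule.algebraMap_end_bijective_of_isAlgClosed (A := 𝒜) (V := V) k
  rw [eq_top_iff]
  intro g _
  let g' : Module.End (Module.End 𝒜 V) V :=
    { toFun := g
      map_add' := g.map_add
      map_smul' := by
        intro φ x
        obtain ⟨t, rfl⟩ := hb.2 φ
        change g ((algebraMap k (Module.End 𝒜 V) t) x) = (algebraMap k (Module.End 𝒜 V) t) (g x)
        rw [Module.algebraMap_end_apply, Module.algebraMap_end_apply, map_smul] }
  let b := Module.finBasis k V
  obtain ⟨r, hr⟩ := jacobson_density g' (Finset.univ.image b)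
  have h2 : (r : Module.End k V) = g := b.ext fun i => (hr (b i) (by simp)).symm
  exact h2 ▸ r.2

end burnside

variable {I B : Type*} [Fintype B] [DecidableEq B] (L : Subfield ℂ)

/-- The coordinatewise application of an `L`-linear map from `ℂ` to `L`. -/
noncomputable def ex (σ : ℂ →ₗ[L] L) (x : I → ℂ) : I → ℂ := fun i => ((σ (x i) : L) : ℂ)

/-- The same for matrices. -/
noncomputable def exM (σ : ℂ →ₗ[L] L) (X : Matrix B B ℂ) : Matrix B B ℂ := fun i j => ((σ (X i j) : L) : ℂ)

theorem mem_span_ex [Finite I] (x : I → ℂ) :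
    x ∈ Submodule.span ℂ (Set.range fun σ : ℂ →ₗ[L] L => ex L σ x) := by
  classical
  have := Fintype.ofFinite I
  let b := Module.Basis.ofVectorSpace L ℂ
  let s := Finset.univ.biUnion fun i => (b.repr (x i)).support
  have key : x = ∑ k ∈ s, b k • ex L (b.coord k) x := by
    funext i
    rw [Finset.sum_apply]
    have h := b.linearCombination_repr (x i)
    rw [Finsupp.linearCombination_apply, Finsupp.sum_of_support_subset (s := s) _ ?_ _ ?_] at h
    · conv_lhs => rw [← h]
      refine Finset.sum_congr rfl fun k _ => ?_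
      simp only [ex, Pi.smul_apply, smul_eq_mul, Module.Basis.coord_apply, Subfield.smul_def]
      ring
    · intro k hk
      exact Finset.mem_biUnion.2 ⟨i, Finset.mem_univ _, hk⟩
    · intro k _
      exact zero_smul _ _
  have hmem : (∑ k ∈ s, b k • ex L (b.coord k) x) ∈
      Submodule.span ℂ (Set.range fun σ : ℂ →ₗ[L] L => ex L σ x) := by
    refine Submodule.sum_mem _ fun k _ => Submodule.smul_mem _ _ (Submodule.subset_span ?_)
    exact ⟨b.coord k, rfl⟩
  rwa [← key] at hmem

theorem mem_span_exM (X : Matrix B B ℂ) :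
    X ∈ Submodule.span ℂ (Set.range fun σ : ℂ →ₗ[L] L => exM L σ X) := by
  have h := mem_span_ex L (fun p : B × B => X p.1 p.2)
  let g : ((B × B) → ℂ) →ₗ[ℂ] Matrix B B ℂ :=
    { toFun := fun y => fun i j => y (i, j)
      map_add' := fun _ _ => rfl
      map_smul' := fun _ _ => rfl }
  have h2 := Submodule.mem_map_of_mem (f := g) h
  rw [Submodule.map_span] at h2
  refine Submodule.span_mono ?_ h2
  rintro _ ⟨_, ⟨σ, rfl⟩, rfl⟩
  exact ⟨σ, rfl⟩

/-- A vector with entries in `L`. -/
def up (x : I → L) : I → ℂ := fun i => ((x i : L) : ℂ)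

theorem ex_eq_up (σ : ℂ →ₗ[L] L) (x : I → ℂ) : ex L σ x = up L (fun i => σ (x i)) := rfl

theorem ex_smul_up (σ : ℂ →ₗ[L] L) (z : ℂ) (x : I → L) : ex L σ (z • up L x) = ((σ z : L) : ℂ) • up L x := by
  funext i
  simp only [ex, up, Pi.smul_apply, smul_eq_mul]
  have h : z * ((x i : L) : ℂ) = (x i) • z := by
    rw [Subfield.smul_def, smul_eq_mul, mul_comm]
  rw [h, map_smul, smul_eq_mul]
  push_cast
  ring

/-- A subspace spanned by vectors with entries in `L` is stable under the maps `ex L σ`. -/
theorem ex_mem_of_span {K : Submodule ℂ (I → ℂ)}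
    (hK : K ≤ Submodule.span ℂ {x | x ∈ K ∧ ∃ y : I → L, x = up L y}) (σ : ℂ →ₗ[L] L) {x : I → ℂ}
    (hx : x ∈ K) : ex L σ x ∈ K := by
  have key : ∀ x ∈ Submodule.span ℂ {x | x ∈ K ∧ ∃ y : I → L, x = up L y},
      ∀ σ : ℂ →ₗ[L] L, ex L σ x ∈ K := by
    intro x hx
    induction hx using Submodule.span_induction with
    | mem x hx =>
      obtain ⟨h1, y, rfl⟩ := hx
      intro σ
      have h2 := ex_smul_up L σ 1 y
      rw [one_smul] at h2
      rw [h2]
      exact K.smul_mem _ h1
    | zero =>
      intro σ
      have : ex L σ (0 : I → ℂ) = 0 := by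
        funext i
        simp [ex]
      rw [this]
      exact K.zero_mem
    | add x y _ _ h1 h2 =>
      intro σ
      have : ex L σ (x + y) = ex L σ x + ex L σ y := by
        funext i
        simp [ex]
      rw [this]
      exact K.add_mem (h1 σ) (h2 σ)
    | smul a x _ h1 =>
      intro σ
      exact h1 (σ.comp (LinearMap.mulLeft L a))
  exact key x (hK hx) σ

theorem exists_up_functional {V0 : Submodule L (B → L)} (h : V0 ≠ ⊤) :
    ∃ φ : B → L, φ ≠ 0 ∧ ∀ x ∈ V0, φ ⬝ᵥ x = 0 := by
  classical
  obtain ⟨v, hv⟩ : ∃ v, v ∉ V0 := by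
    by_contra hc
    push Not at hc
    exact h (eq_top_iff.2 fun x _ => hc x)
  obtain ⟨f, hf1, hf2⟩ := Submodule.exists_le_ker_of_notMem hv
  refine ⟨fun i => f (Pi.single i 1), ?_, ?_⟩
  · intro h0
    apply hf1
    have h1 : v = ∑ i, v i • (Pi.single i (1 : L) : B → L) := by
      funext j
      simp [Finset.sum_apply, Pi.single_apply]
    rw [h1, map_sum]
    refine Finset.sum_eq_zero fun i _ => ?_
    rw [map_smul, congrFun h0 i]
    simp
  · intro x hx
    have h1 : x = ∑ i, x i • (Pi.single i (1 : L) : B → L) := by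
      funext j
      simp [Finset.sum_apply, Pi.single_apply]
    have h2 : f x = 0 := hf2 hx
    rw [h1, map_sum] at h2
    rw [← h2]
    unfold dotProduct
    refine Finset.sum_congr rfl fun i _ => ?_
    rw [map_smul, smul_eq_mul, mul_comm]

/-- A subspace without proper stable subspaces over `L` has no proper stable subspaces over `ℂ`, if
`L` is algebraically closed. -/
theorem irred [IsAlgClosed L] (𝔥 : Submodule ℂ (Matrix B B ℂ))
    (hrat : ∀ σ, ∀ X ∈ 𝔥, exM L σ X ∈ 𝔥)
    (hN : ∀ N : Submodule ℂ (B → ℂ), (∀ σ, ∀ x ∈ N, ex L σ x ∈ N) →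
      (∀ X ∈ 𝔥, ∀ x ∈ N, X *ᵥ x ∈ N) → N = ⊥ ∨ N = ⊤)
    (M : Submodule ℂ (B → ℂ)) (hM : ∀ X ∈ 𝔥, ∀ x ∈ M, X *ᵥ x ∈ M) : M = ⊥ ∨ M = ⊤ := by
  classical
  rcases isEmpty_or_nonempty B with hB | hB
  · left
    rw [eq_bot_iff]
    intro x _
    exact (Submodule.mem_bot ℂ).2 (Subsingleton.elim _ _)
  let upM : Matrix B B L → Matrix B B ℂ := fun Y => Y.map (algebraMap L ℂ)
  let 𝒜 : Subalgebra L (Module.End L (B → L)) :=
    Algebra.adjoin L {g | ∃ Y : Matrix B B L, upM Y ∈ 𝔥 ∧ g = Matrix.toLin' Y}
  have hup : ∀ (Y : Matrix B B L) (x : B → L), upM Y *ᵥ up L x = up L (Y *ᵥ x) := by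
    intro Y x
    funext i
    simp only [upM, up, Matrix.mulVec, dotProduct, Matrix.map_apply]
    push_cast
    rfl
  have htop : 𝒜 = ⊤ := by
    apply burnside
    intro N0 hN0
    let N : Submodule ℂ (B → ℂ) := Submodule.span ℂ (up L '' (N0 : Set (B → L)))
    have hr : ∀ σ, ∀ x ∈ N, ex L σ x ∈ N := by
      intro σ x hx
      refine ex_mem_of_span L (K := N) ?_ σ hx
      refine Submodule.span_le.2 ?_
      rintro _ ⟨y, hy, rfl⟩
      exact Submodule.subset_span ⟨Submodule.subset_span ⟨y, hy, rfl⟩, y, rfl⟩
    have hs : ∀ X ∈ 𝔥, ∀ x ∈ N, X *ᵥ x ∈ N := by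
      intro X hX x hx
      have h1 : ∀ x ∈ N, ∀ X' ∈ Submodule.span ℂ (Set.range fun σ : ℂ →ₗ[L] L => exM L σ X),
          X' *ᵥ x ∈ N := by
        intro x hx X' hX'
        induction hX' using Submodule.span_induction with
        | mem X' hX' =>
          obtain ⟨σ, rfl⟩ := hX'
          let Y : Matrix B B L := Matrix.of fun i j => σ (X i j)
          have h2 : exM L σ X = upM Y := rfl
          induction hx using Submodule.span_induction with
          | mem x hx =>
            obtain ⟨y, hy, rfl⟩ := hx
            change exM L σ X *ᵥ up L y ∈ N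
            rw [h2, hup]
            refine Submodule.subset_span ⟨_, ?_, rfl⟩
            have h3 := hN0 (Matrix.toLin' Y)
              (Algebra.subset_adjoin ⟨_, by rw [← h2]; exact hrat σ X hX, rfl⟩) y hy
            rwa [Matrix.toLin'_apply] at h3
          | zero =>
            rw [Matrix.mulVec_zero]
            exact N.zero_mem
          | add x y _ _ h1 h2 =>
            rw [Matrix.mulVec_add]
            exact N.add_mem h1 h2
          | smul a x _ h1 =>
            rw [Matrix.mulVec_smul]
            exact N.smul_mem _ h1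
        | zero =>
          rw [Matrix.zero_mulVec]
          exact N.zero_mem
        | add X Y _ _ h1 h2 =>
          rw [Matrix.add_mulVec]
          exact N.add_mem h1 h2
        | smul a X _ h1 =>
          rw [Matrix.smul_mulVec]
          exact N.smul_mem _ h1
      exact h1 x hx X (mem_span_exM L X)
    rcases hN N hr hs with h | h
    · left
      rw [eq_bot_iff]
      intro x hx
      have h1 : up L x ∈ N := Submodule.subset_span ⟨x, hx, rfl⟩
      rw [h, Submodule.mem_bot] at h1
      rw [Submodule.mem_bot]
      funext i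
      have h2 : ((x i : L) : ℂ) = 0 := congrFun h1 i
      exact Subtype.ext h2
    · right
      by_contra hne
      obtain ⟨φ, hφ, h1⟩ := exists_up_functional L hne
      apply hφ
      have h2 : ∀ x ∈ N, up L φ ⬝ᵥ x = 0 := by
        intro x hx
        induction hx using Submodule.span_induction with
        | mem x hx =>
          obtain ⟨y, hy, rfl⟩ := hx
          have h3 := h1 y hy
          have h4 : up L φ ⬝ᵥ up L y = ((φ ⬝ᵥ y : L) : ℂ) := by
            unfold dotProduct up
            push_cast
            rfl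
          rw [h4, h3]
          rfl
        | zero => exact dotProduct_zero _
        | add x y _ _ h1 h2 => rw [dotProduct_add, h1, h2, add_zero]
        | smul a x _ h1 => rw [dotProduct_smul, h1, smul_zero]
      funext i
      have h3 := h2 (Pi.single i 1) (by rw [h]; trivial)
      rw [dotProduct_single, mul_one] at h3
      have h4 : ((φ i : L) : ℂ) = 0 := h3
      exact Subtype.ext h4
  have hall : ∀ (Y : Matrix B B L), ∀ x ∈ M, upM Y *ᵥ x ∈ M := by
    have h1 : ∀ g ∈ 𝒜, ∀ x ∈ M, upM (LinearMap.toMatrix' g) *ᵥ x ∈ M := by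
      intro g hg
      induction hg using Algebra.adjoin_induction with
      | mem g hg =>
        obtain ⟨Y, hY, rfl⟩ := hg
        intro x hx
        rw [LinearMap.toMatrix'_toLin']
        exact hM _ hY x hx
      | algebraMap r =>
        intro x hx
        have h2 : upM (LinearMap.toMatrix' (algebraMap L (Module.End L (B → L)) r)) *ᵥ x =
            ((r : L) : ℂ) • x := by
          have h3 : algebraMap L (Module.End L (B → L)) r = r • (1 : Module.End L (B → L)) :=
            Algebra.algebraMap_eq_smul_one r
          rw [h3, map_smul, LinearMap.toMatrix'_one]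
          funext i
          simp only [upM, Matrix.mulVec, dotProduct, Matrix.map_apply, Matrix.smul_apply,
            Matrix.one_apply, Pi.smul_apply, smul_eq_mul]
          rw [Finset.sum_eq_single i]
          · simp
            left
            rfl
          · intro j _ hj
            simp [Ne.symm hj]
          · simp
        rw [h2]
        exact M.smul_mem _ hx
      | add g g' _ _ h1 h2 =>
        intro x hx
        have h3 : upM (LinearMap.toMatrix' (g + g')) =
            upM (LinearMap.toMatrix' g) + upM (LinearMap.toMatrix' g') := by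
          rw [map_add]
          funext i j
          simp [upM]
        rw [h3, Matrix.add_mulVec]
        exact M.add_mem (h1 x hx) (h2 x hx)
      | mul g g' _ _ h1 h2 =>
        intro x hx
        have h3 : upM (LinearMap.toMatrix' (g * g')) =
            upM (LinearMap.toMatrix' g) * upM (LinearMap.toMatrix' g') := by
          rw [LinearMap.toMatrix'_mul]
          exact Matrix.map_mul
        rw [h3, ← Matrix.mulVec_mulVec]
        exact h1 _ (h2 x hx)
    intro Y x hx
    have h2 := h1 (Matrix.toLin' Y) (by rw [htop]; trivial) x hx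
    rwa [LinearMap.toMatrix'_toLin'] at h2
  by_cases hb : M = ⊥
  · exact Or.inl hb
  · right
    obtain ⟨x, hx, hx0⟩ := Submodule.exists_mem_ne_zero_of_ne_bot hb
    obtain ⟨i, hi⟩ : ∃ i, x i ≠ 0 := by
      by_contra hc
      push Not at hc
      exact hx0 (funext hc)
    have h1 : ∀ j, (Pi.single j (1 : ℂ) : B → ℂ) ∈ M := by
      intro j
      have h2 := hall (Matrix.single j i 1) x hx
      have h3 : upM (Matrix.single j i 1) *ᵥ x = x i • (Pi.single j (1 : ℂ) : B → ℂ) := by
        funext a
        simp only [upM, Matrix.mulVec, dotProduct, Matrix.map_apply, Pi.smul_apply, smul_eq_mul,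
          Matrix.single_apply, Pi.single_apply]
        by_cases ha : a = j
        · subst ha
          rw [Finset.sum_eq_single i]
          · simp
          · intro b _ hb
            simp [Ne.symm hb]
          · simp
        · simp only [Ne.symm ha, ha, false_and, if_false, mul_zero]
          refine Finset.sum_eq_zero fun b _ => ?_
          simp
      rw [h3] at h2
      have h4 := M.smul_mem (x i)⁻¹ h2
      rwa [smul_smul, inv_mul_cancel₀ hi, one_smul] at h4
    rw [eq_top_iff]
    intro y _
    have h2 : y = ∑ j, y j • (Pi.single j (1 : ℂ) : B → ℂ) := by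
      funext j
      simp [Finset.sum_apply, Pi.single_apply]
    rw [h2]
    exact M.sum_mem fun j _ => M.smul_mem _ (h1 j)

end Pool.Agent.Q69.KP
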