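import Pool.Agent.Q69.KP.Main2

/-!
# Hodge classes on products with powers of Hodge structures of K3 type (III)
-/

set_option linter.unusedSectionVars false

namespace Pool.Agent.Q69.KP

open Matrix Pool.Agent.W437.HK

variable {A B : Type} [Fintype A] [DecidableEq A] [Fintype B] [DecidableEq B]
  {q : Matrix B B ℚ} {ω : B → ℂ}
variable {n : ℕ} {H : ℤ → Submodule ℂ (A → ℂ)} {f : (Fin n → B) → A → ℚ}
variable (L : Subfield ℂ) [IsAlgClosed L]

/-- The values of a Hodge class are Hodge classes. -/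
theorem values_hodge (h : IsPeriod q ω) (h3 : 3 ≤ Fintype.card B)
    (hconj : ∀ z ∈ L, starRingEnd ℂ z ∈ L)
    (hlin : LinearIndependent L ω) (hH : IsHodgeStr H) (hL : DefinedOver L H)
    (hf : IsHodgeClass (hodgeT q ω) H f) (J : Fin n → B) : (fun a => (f J a : ℂ)) ∈ H 0 := by
  by_contra hc
  obtain ⟨φ, hφ1, hφ2⟩ := Submodule.exists_le_ker_of_notMem hc
  set lam : A → ℂ := fun i => φ (Pi.single i 1) with hlam
  have hφ : ∀ x, φ x = lam ⬝ᵥ x := by
    intro x
    have h1 : x = ∑ i, x i • (Pi.single i (1 : ℂ) : A → ℂ) := by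
      funext j
      simp [Finset.sum_apply, Pi.single_apply]
    conv_lhs => rw [h1, map_sum]
    unfold dotProduct
    refine Finset.sum_congr rfl fun i _ => ?_
    rw [map_smul, smul_eq_mul, mul_comm]
  have h0 : cy f lam = 0 := by
    apply eq_of_pure h
    intro x d hx
    by_cases hd : ∑ k, d k = 0
    · have h1 := hf x d hx
      rw [hd] at h1
      rw [evalF_cy, ← hφ]
      exact hφ2 h1
    · have h1 := evalF_actP h (cy f lam) hx
      rw [kill_all L h h3 hconj hlin hH hL hf, evalF_zero] at h1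
      refine (mul_eq_zero.1 h1.symm).resolve_left (mul_ne_zero h.nz ?_)
      exact_mod_cast hd
  apply hφ1
  rw [hφ]
  have h1 := congrFun h0 J
  rw [cy_apply] at h1
  exact h1

/-- The invariance in coordinates. -/
theorem inv_coord (h : IsPeriod q ω) (h3 : 3 ≤ Fintype.card B)
    (hconj : ∀ z ∈ L, starRingEnd ℂ z ∈ L)
    (hlin : LinearIndependent L ω) (hH : IsHodgeStr H) (hL : DefinedOver L H)
    (hf : IsHodgeClass (hodgeT q ω) H f) (u v : B) (J : Fin n → B) :
    ∑ k, (q v (J k) • f (Function.update J k u) - q u (J k) • f (Function.update J k v)) = 0 := by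
  funext a
  have h1 := kill_all L h h3 hconj hlin hH hL hf (Pi.single u 1) (Pi.single v 1)
    (Pi.single a 1)
  have h2 := congrFun h1 J
  have h4 : ∀ I, cy f (Pi.single a 1) I = (f I a : ℂ) := by
    intro I
    rw [cy_apply, Finset.sum_eq_single a]
    · rw [Pi.single_eq_same, one_mul]
    · intro b _ hb
      rw [Pi.single_eq_of_ne hb, zero_mul]
    · intro hh
      exact absurd (Finset.mem_univ _) hh
  have hq : ∀ i j, q i j = q j i := fun i j => (congrFun (congrFun h.symm j) i)
  have h5 : ∀ j i, wedge (cQ q) (Pi.single u 1) (Pi.single v 1) j i =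
      (if j = u then (q v i : ℂ) else 0) - (if j = v then (q u i : ℂ) else 0) := by
    intro j i
    unfold wedge
    rw [Matrix.sub_apply, vecMulVec_apply, vecMulVec_apply, mulVec_single_one, mulVec_single_one]
    simp only [Pi.single_apply, ite_mul, one_mul, zero_mul, Matrix.col_apply, cQ]
    rw [hq i v, hq i u]
  simp only [act, h4, h5, Pi.zero_apply, sub_mul, ite_mul, zero_mul, Finset.sum_sub_distrib,
    Finset.sum_ite_eq', Finset.mem_univ, if_true] at h2
  rw [Finset.sum_apply, Pi.zero_apply]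
  simp only [Pi.sub_apply, Pi.smul_apply, smul_eq_mul]
  have h6 : ((∑ k, (q v (J k) * f (Function.update J k u) a -
      q u (J k) * f (Function.update J k v) a) : ℚ) : ℂ) = 0 := by
    push_cast
    rw [Finset.sum_sub_distrib]
    exact h2
  exact_mod_cast h6

/-- The rational Hodge classes. -/
def hdg (H : ℤ → Submodule ℂ (A → ℂ)) : Submodule ℚ (A → ℚ) where
  carrier := {w | (fun a => (w a : ℂ)) ∈ H 0}
  add_mem' := by
    intro x y hx hy
    have e : (fun a => (((x + y) a : ℚ) : ℂ)) = (fun a => (x a : ℂ)) + fun a => (y a : ℂ) := by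
      funext a
      simp
    change (fun a => (((x + y) a : ℚ) : ℂ)) ∈ H 0
    rw [e]
    exact (H 0).add_mem hx hy
  zero_mem' := by
    have e : (fun a => (((0 : A → ℚ) a : ℚ) : ℂ)) = 0 := by
      funext a
      simp
    change (fun a => (((0 : A → ℚ) a : ℚ) : ℂ)) ∈ H 0
    rw [e]
    exact (H 0).zero_mem
  smul_mem' := by
    intro t x hx
    have e : (fun a => (((t • x) a : ℚ) : ℂ)) = (t : ℂ) • fun a => (x a : ℂ) := by
      funext a
      simp
    change (fun a => (((t • x) a : ℚ) : ℂ)) ∈ H 0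
    rw [e]
    exact (H 0).smul_mem _ hx

theorem generated (h : IsPeriod q ω) (h3 : 3 ≤ Fintype.card B)
    (hconj : ∀ z ∈ L, starRingEnd ℂ z ∈ L)
    (hlin : LinearIndependent L ω) (hH : IsHodgeStr H) (hL : DefinedOver L H)
    (hf : IsHodgeClass (hodgeT q ω) H f) (hn : n < Fintype.card B) :
    f ∈ Submodule.span ℚ {g | ∃ (m : ℕ) (e : Fin m × Fin 2 ≃ Fin n) (w : A → ℚ),
      (fun a => (w a : ℂ)) ∈ H 0 ∧
        g = fun J => (∏ l, q (J (e (l, 0))) (J (e (l, 1)))) • w} := by
  classical
  let f' : (Fin n → B) → hdg H := fun J => ⟨f J, values_hodge L h h3 hconj hlin hH hL hf J⟩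
  have hq : ∀ i j, q i j = q j i := fun i j => (congrFun (congrFun h.symm j) i)
  have hQR : q * q⁻¹ = 1 := Matrix.mul_nonsing_inv q (isUnit_iff_ne_zero.2 h.det)
  have hinv : TH125.Nod.Inv (K := ℚ) (fun _ : B => ()) q (fun i => (((fun _ : Unit => (1 : ℤ)) i : ℤ) : ℚ)) f' := by
    intro u v _ J
    apply Subtype.ext
    have h1 := inv_coord L h h3 hconj hlin hH hL hf u v J
    rw [AddSubmonoidClass.coe_finsetSum]
    refine Eq.trans (Finset.sum_congr rfl fun k _ => ?_) h1
    change q v (J k) • f (Function.update J k u) -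
      (((1 : ℤ) : ℚ) * q u (J k)) • f (Function.update J k v) = _
    rw [Int.cast_one, one_mul]
  have hmem := TH125.Nod.fft (K := ℚ) (κ := fun _ : B => ()) (Q := q) (R := q⁻¹)
    (s := fun _ : Unit => 1) (fun _ => Or.inl rfl) (fun a b hab => absurd rfl hab)
    (fun a b => by rw [hq a b]; simp) hQR n (Fin n) (fun _ => ()) f' (Fintype.card_fin n)
    (fun J hJ => absurd (fun j => rfl) hJ) hinv (by
      intro i _
      unfold TH125.Nod.blk
      simpa using hn)
  let Φ : ((Fin n → B) → hdg H) →ₗ[ℚ] ((Fin n → B) → A → ℚ) :=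
    { toFun := fun g => fun J => (g J : A → ℚ)
      map_add' := fun g g' => rfl
      map_smul' := fun t g => rfl }
  have h1 : Φ f' ∈ (TH125.Nod.Gen (fun _ : B => ()) q (fun _ : Fin n => ())).map Φ :=
    Submodule.mem_map_of_mem hmem
  unfold TH125.Nod.Gen at h1
  rw [Submodule.map_span] at h1
  have h2 : Φ f' = f := rfl
  rw [h2] at h1
  refine Submodule.span_mono ?_ h1
  rintro _ ⟨_, ⟨m, e, w, rfl⟩, rfl⟩
  refine ⟨m, e, w.1, w.2, ?_⟩
  funext J
  change ((TH125.Nod.gen (fun _ : B => ()) q (fun _ : Fin n => ()) e w J : hdg H) : A → ℚ) = _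
  unfold TH125.Nod.gen
  rw [if_pos (fun _ => rfl)]
  rfl

end Pool.Agent.Q69.KP
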