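import Mathlib

/-!
# Lie subalgebras of the orthogonal Lie algebra that contain a hyperbolic element of rank two
-/

set_option linter.unusedSectionVars false

namespace Pool.Agent.Q69.KP

open Matrix

variable {B : Type*} [Fintype B] [DecidableEq B]

/-- The bilinear form of a matrix. -/
def qf (Q : Matrix B B ℂ) (x y : B → ℂ) : ℂ := x ⬝ᵥ (Q *ᵥ y)

/-- The operator `x ↦ q (b, x) a - q (a, x) b`. -/
def wedge (Q : Matrix B B ℂ) (a b : B → ℂ) : Matrix B B ℂ :=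
  vecMulVec a (Q *ᵥ b) - vecMulVec b (Q *ᵥ a)

/-- The matrix is skew for the form. -/
def IsSo (Q X : Matrix B B ℂ) : Prop := ∀ x y, qf Q (X *ᵥ x) y + qf Q x (X *ᵥ y) = 0

variable {Q : Matrix B B ℂ}

theorem qf_symm (hQ : Qᵀ = Q) (x y : B → ℂ) : qf Q x y = qf Q y x := by
  unfold qf
  rw [Matrix.dotProduct_mulVec, ← Matrix.mulVec_transpose, hQ, dotProduct_comm]

theorem qf_add_left (x y z : B → ℂ) : qf Q (x + y) z = qf Q x z + qf Q y z := add_dotProduct _ _ _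

theorem qf_add_right (x y z : B → ℂ) : qf Q x (y + z) = qf Q x y + qf Q x z := by
  unfold qf
  rw [mulVec_add, dotProduct_add]

theorem qf_smul_left (a : ℂ) (x z : B → ℂ) : qf Q (a • x) z = a * qf Q x z := by
  unfold qf
  rw [smul_dotProduct, smul_eq_mul]

theorem qf_smul_right (a : ℂ) (x z : B → ℂ) : qf Q x (a • z) = a * qf Q x z := by
  unfold qf
  rw [mulVec_smul, dotProduct_smul, smul_eq_mul]

theorem qf_sub_left (x y z : B → ℂ) : qf Q (x - y) z = qf Q x z - qf Q y z := sub_dotProduct _ _ _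

theorem qf_sub_right (x y z : B → ℂ) : qf Q x (y - z) = qf Q x y - qf Q x z := by
  unfold qf
  rw [mulVec_sub, dotProduct_sub]

theorem wedge_mulVec (a b x : B → ℂ) :
    wedge Q a b *ᵥ x = (qf Q x b) • a - (qf Q x a) • b := by
  unfold wedge qf
  rw [sub_mulVec, vecMulVec_mulVec, vecMulVec_mulVec]
  funext i
  simp only [Pi.sub_apply, Pi.smul_apply, smul_eq_mul, dotProduct_comm (Q *ᵥ b),
    dotProduct_comm (Q *ᵥ a), op_smul_eq_mul]
  ring

theorem wedge_add_right (a b c : B → ℂ) : wedge Q a (b + c) = wedge Q a b + wedge Q a c := by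
  unfold wedge
  rw [mulVec_add, vecMulVec_add, add_vecMulVec]
  abel

theorem wedge_smul_right (t : ℂ) (a b : B → ℂ) : wedge Q a (t • b) = t • wedge Q a b := by
  unfold wedge
  rw [mulVec_smul, vecMulVec_smul, smul_vecMulVec, smul_sub]

theorem wedge_swap (a b : B → ℂ) : wedge Q a b = -wedge Q b a := by
  unfold wedge
  abel

theorem wedge_self (a : B → ℂ) : wedge Q a a = 0 := sub_self _

theorem wedge_add_left (a b c : B → ℂ) : wedge Q (a + b) c = wedge Q a c + wedge Q b c := by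
  rw [wedge_swap, wedge_add_right, wedge_swap a, wedge_swap b]
  abel

theorem wedge_smul_left (t : ℂ) (a b : B → ℂ) : wedge Q (t • a) b = t • wedge Q a b := by
  rw [wedge_swap, wedge_smul_right, wedge_swap a, smul_neg]

theorem wedge_sub_right (a b c : B → ℂ) : wedge Q a (b - c) = wedge Q a b - wedge Q a c := by
  rw [sub_eq_add_neg, wedge_add_right, ← neg_one_smul ℂ c, wedge_smul_right, neg_one_smul,
    ← sub_eq_add_neg]

theorem eq_of_mulVec {X Y : Matrix B B ℂ} (h : ∀ x, X *ᵥ x = Y *ᵥ x) : X = Y := by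
  apply Matrix.toLin'.injective
  apply LinearMap.ext
  intro x
  rw [Matrix.toLin'_apply, Matrix.toLin'_apply, h]

/-- The commutator with `a ∧ b`. -/
theorem bracket_wedge {X : Matrix B B ℂ} (hX : IsSo Q X) (a b : B → ℂ) :
    X * wedge Q a b - wedge Q a b * X = wedge Q (X *ᵥ a) b + wedge Q a (X *ᵥ b) := by
  apply eq_of_mulVec
  intro x
  rw [sub_mulVec, add_mulVec, ← mulVec_mulVec, ← mulVec_mulVec, wedge_mulVec, wedge_mulVec,
    wedge_mulVec, wedge_mulVec, mulVec_sub, mulVec_smul, mulVec_smul]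
  have h1 : qf Q (X *ᵥ x) b = -qf Q x (X *ᵥ b) := eq_neg_of_add_eq_zero_left (hX x b)
  have h2 : qf Q (X *ᵥ x) a = -qf Q x (X *ᵥ a) := eq_neg_of_add_eq_zero_left (hX x a)
  rw [h1, h2]
  module

theorem isSo_wedge (hQ : Qᵀ = Q) (a b : B → ℂ) : IsSo Q (wedge Q a b) := by
  intro x y
  rw [wedge_mulVec, wedge_mulVec, qf_sub_left, qf_sub_right, qf_smul_left, qf_smul_left,
    qf_smul_right, qf_smul_right, qf_symm hQ a y, qf_symm hQ b y]
  ring

/-- A Lie subalgebra of the orthogonal Lie algebra without stable subspaces which contains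
`ω ∧ ω'`, for isotropic `ω`, `ω'` with `q (ω, ω') ≠ 0`, contains all `ω ∧ w`. -/
theorem zarhin (hQ : Qᵀ = Q) {𝔥 : Submodule ℂ (Matrix B B ℂ)}
    (hso : ∀ X ∈ 𝔥, IsSo Q X) (hbr : ∀ X ∈ 𝔥, ∀ Y ∈ 𝔥, X * Y - Y * X ∈ 𝔥)
    {ω ω' : B → ℂ} (h1 : qf Q ω ω = 0) (h2 : qf Q ω' ω' = 0) (h3 : qf Q ω ω' ≠ 0)
    (hD : wedge Q ω ω' ∈ 𝔥)
    (hirr : ∀ N : Submodule ℂ (B → ℂ), (∀ X ∈ 𝔥, ∀ x ∈ N, X *ᵥ x ∈ N) → N = ⊥ ∨ N = ⊤)
    (w : B → ℂ) : wedge Q ω w ∈ 𝔥 := by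
  have h3' : qf Q ω' ω ≠ 0 := by rwa [qf_symm hQ]
  have hskew : ∀ X ∈ 𝔥, ∀ x y, qf Q (X *ᵥ x) y = -qf Q x (X *ᵥ y) := fun X hX x y =>
    eq_neg_of_add_eq_zero_left (hso X hX x y)
  have hself : ∀ X ∈ 𝔥, ∀ x, qf Q (X *ᵥ x) x = 0 := by
    intro X hX x
    have h := hso X hX x x
    rw [qf_symm hQ x (X *ᵥ x)] at h
    have h' : (2 : ℂ) * qf Q (X *ᵥ x) x = 0 := by rw [two_mul]; exact h
    exact (mul_eq_zero.1 h').resolve_left two_ne_zero
  have hω' : ω' ≠ 0 := by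
    intro h
    apply h3
    rw [h]
    unfold qf
    rw [mulVec_zero, dotProduct_zero]
  -- the two parts of the commutator with `ω ∧ ω'`
  have hsplit : ∀ X ∈ 𝔥, wedge Q ω (X *ᵥ ω') ∈ 𝔥 ∧ wedge Q (X *ᵥ ω) ω' ∈ 𝔥 := by
    intro X hX
    have hR := hbr X hX _ hD
    rw [bracket_wedge (hso X hX)] at hR
    have hS := hbr _ hD _ hR
    have e1 : wedge Q ω ω' * (wedge Q (X *ᵥ ω) ω' + wedge Q ω (X *ᵥ ω')) -
        (wedge Q (X *ᵥ ω) ω' + wedge Q ω (X *ᵥ ω')) * wedge Q ω ω' =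
        (wedge Q ω ω' * wedge Q (X *ᵥ ω) ω' - wedge Q (X *ᵥ ω) ω' * wedge Q ω ω') +
        (wedge Q ω ω' * wedge Q ω (X *ᵥ ω') - wedge Q ω (X *ᵥ ω') * wedge Q ω ω') := by
      noncomm_ring
    rw [e1, bracket_wedge (hso _ hD), bracket_wedge (hso _ hD)] at hS
    have e2 : wedge Q ω ω' *ᵥ ω' = (-qf Q ω ω') • ω' := by
      rw [wedge_mulVec, h2, qf_symm hQ ω' ω]
      module
    have e3 : wedge Q ω ω' *ᵥ ω = (qf Q ω ω') • ω := by
      rw [wedge_mulVec, h1]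
      module
    have e4 : wedge Q ω ω' *ᵥ (X *ᵥ ω) = (qf Q (X *ᵥ ω) ω') • ω := by
      rw [wedge_mulVec, hself X hX ω]
      module
    have e5 : wedge Q ω ω' *ᵥ (X *ᵥ ω') = (-qf Q (X *ᵥ ω') ω) • ω' := by
      rw [wedge_mulVec, hself X hX ω']
      module
    rw [e2, e3, e4, e5, wedge_smul_left, wedge_smul_right, wedge_smul_left, wedge_smul_right] at hS
    -- combine
    have hP1 := 𝔥.smul_mem (qf Q (X *ᵥ ω) ω') hD
    have hP2 := 𝔥.smul_mem (-qf Q (X *ᵥ ω') ω) hD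
    have hT : (qf Q ω ω') • (wedge Q ω (X *ᵥ ω') - wedge Q (X *ᵥ ω) ω') ∈ 𝔥 := by
      have := 𝔥.sub_mem (𝔥.sub_mem hS hP1) hP2
      convert this using 1
      module
    have hT' : wedge Q ω (X *ᵥ ω') - wedge Q (X *ᵥ ω) ω' ∈ 𝔥 := by
      have := 𝔥.smul_mem (qf Q ω ω')⁻¹ hT
      rwa [smul_smul, inv_mul_cancel₀ h3, one_smul] at this
    constructor
    · have := 𝔥.smul_mem (2⁻¹ : ℂ) (𝔥.add_mem hR hT')
      convert this using 1
      module
    · have := 𝔥.smul_mem (2⁻¹ : ℂ) (𝔥.sub_mem hR hT')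
      convert this using 1
      module
  let wl : (B → ℂ) →ₗ[ℂ] Matrix B B ℂ :=
    { toFun := fun b => wedge Q ω b
      map_add' := fun b c => wedge_add_right ω b c
      map_smul' := fun t b => wedge_smul_right t ω b }
  let W : Submodule ℂ (B → ℂ) := 𝔥.comap wl
  have hW : ∀ x, x ∈ W ↔ wedge Q ω x ∈ 𝔥 := fun x => Iff.rfl
  let ql : (B → ℂ) →ₗ[ℂ] ℂ :=
    { toFun := fun b => qf Q b ω'
      map_add' := fun b c => qf_add_left b c ω'
      map_smul' := fun t b => qf_smul_left t b ω' }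
  let N : Submodule ℂ (B → ℂ) := W ⊓ LinearMap.ker ql
  have hN : ∀ x, x ∈ N ↔ wedge Q ω x ∈ 𝔥 ∧ qf Q x ω' = 0 := fun x => Iff.rfl
  have hZ2 : ∀ X ∈ 𝔥, ∀ x ∈ N, wedge Q (X *ᵥ ω) x ∈ 𝔥 := by
    intro X hX x hx
    obtain ⟨hx1, hx2⟩ := (hN x).1 hx
    have hv : wedge Q ω' (X *ᵥ ω) ∈ 𝔥 := by
      rw [wedge_swap]
      exact 𝔥.neg_mem (hsplit X hX).2
    have hb := hbr _ hv _ hx1
    rw [bracket_wedge (hso _ hv), wedge_mulVec, wedge_mulVec, qf_symm hQ ω (X *ᵥ ω),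
      hself X hX ω, hx2, zero_smul, zero_sub, zero_smul, sub_zero, ← neg_smul, wedge_smul_left,
      wedge_smul_right] at hb
    have h4 := 𝔥.sub_mem hb (𝔥.smul_mem (qf Q x (X *ᵥ ω)) hD)
    rw [add_sub_cancel_right] at h4
    have h5 := 𝔥.smul_mem (-qf Q ω ω')⁻¹ h4
    rwa [smul_smul, inv_mul_cancel₀ (neg_ne_zero.2 h3), one_smul] at h5
  have hZ3 : ∀ X ∈ 𝔥, ∀ x ∈ N, X *ᵥ x ∈ W := by
    intro X hX x hx
    have hb := hbr _ hX _ ((hN x).1 hx).1
    rw [bracket_wedge (hso _ hX)] at hb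
    have h4 := 𝔥.sub_mem hb (hZ2 X hX x hx)
    rw [add_sub_cancel_left] at h4
    exact h4
  have hω'N : ω' ∈ N := (hN _).2 ⟨hD, h2⟩
  have hωW : ω ∈ W := by
    rw [hW, wedge_self]
    exact 𝔥.zero_mem
  by_cases hiso : ∀ x ∈ N, ∀ y ∈ N, qf Q x y = 0
  · exfalso
    rcases hirr N (by
      intro X hX x hx
      refine (hN _).2 ⟨hZ3 X hX x hx, ?_⟩
      rw [hskew X hX, hiso x hx (X *ᵥ ω') ((hN _).2 ⟨(hsplit X hX).1, hself X hX ω'⟩), neg_zero])
      with h | h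
    · rw [h, Submodule.mem_bot] at hω'N
      exact hω' hω'N
    · have : ω ∈ N := by rw [h]; trivial
      exact h3 ((hN _).1 this).2
  · push Not at hiso
    obtain ⟨x, hx, y, hy, hxy⟩ := hiso
    -- make `x` orthogonal to `ω`
    obtain ⟨x0, hx0, hx0ω, hx0y⟩ : ∃ x0 ∈ N, qf Q x0 ω = 0 ∧ qf Q x0 y ≠ 0 := by
      refine ⟨x - (qf Q x ω / qf Q ω' ω) • ω', N.sub_mem hx (N.smul_mem _ hω'N), ?_, ?_⟩
      · rw [qf_sub_left, qf_smul_left, div_mul_cancel₀ _ h3', sub_self]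
      · rw [qf_sub_left, qf_smul_left, qf_symm hQ ω' y, ((hN y).1 hy).2, mul_zero, sub_zero]
        exact hxy
    have hXω : ∀ X ∈ 𝔥, X *ᵥ ω ∈ W := by
      intro X hX
      have hv := hZ2 X hX x0 hx0
      have hb := hbr _ hv _ ((hN y).1 hy).1
      rw [bracket_wedge (hso _ hv), wedge_mulVec, wedge_mulVec, qf_symm hQ ω x0, hx0ω,
        qf_symm hQ ω (X *ᵥ ω), hself X hX ω, zero_smul, zero_smul, sub_zero] at hb
      have h0 : wedge Q (0 : B → ℂ) y = 0 := by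
        have := wedge_smul_left (Q := Q) 0 (0 : B → ℂ) y
        rwa [zero_smul, zero_smul] at this
      rw [h0, zero_add, wedge_sub_right, wedge_smul_right, wedge_smul_right] at hb
      have h4 := 𝔥.add_mem hb (𝔥.smul_mem (qf Q y (X *ᵥ ω)) ((hN x0).1 hx0).1)
      rw [sub_add_cancel] at h4
      have h5 := 𝔥.smul_mem (qf Q y x0)⁻¹ h4
      rw [qf_symm hQ] at hx0y
      rwa [smul_smul, inv_mul_cancel₀ hx0y, one_smul] at h5
    rcases hirr W (by
      intro X hX x hx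
      have hn : x - (qf Q x ω' / qf Q ω ω') • ω ∈ N := by
        refine (hN _).2 ⟨W.sub_mem hx (W.smul_mem _ hωW), ?_⟩
        rw [qf_sub_left, qf_smul_left, div_mul_cancel₀ _ h3, sub_self]
      have e : x = (x - (qf Q x ω' / qf Q ω ω') • ω) + (qf Q x ω' / qf Q ω ω') • ω := by
        rw [sub_add_cancel]
      rw [e, mulVec_add, mulVec_smul]
      exact W.add_mem (hZ3 X hX _ hn) (W.smul_mem _ (hXω X hX))) with h | h
    · exfalso
      have h4 : ω' ∈ W := hω'N.1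
      rw [h, Submodule.mem_bot] at h4
      exact hω' h4
    · have h4 : w ∈ W := by rw [h]; trivial
      exact h4

end Pool.Agent.Q69.KP
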