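import Pool.Agent.Q69.KP.Dens
import Pool.Agent.Q69.KP.Wedge
import Pool.Agent.W437.HK.Cubic
import Pool.Agent.TH125.Nod.Fft2

/-!
# Hodge classes on products with powers of Hodge structures of K3 type with independent periods
-/

set_option linter.unusedSectionVars false

namespace Pool.Agent.Q69.KP

open Matrix Pool.Agent.W437.HK

/-- Complex conjugation of the coordinates. -/
noncomputable def cj {I : Type*} (x : I → ℂ) : I → ℂ := fun i => starRingEnd ℂ (x i)

variable {A B : Type} [Fintype A] [DecidableEq A] [Fintype B] [DecidableEq B]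

/-- A rational matrix as a complex matrix. -/
noncomputable def cQ (q : Matrix B B ℚ) : Matrix B B ℂ := fun i j => (q i j : ℂ)

/-- `q` is the matrix of a nondegenerate symmetric form on the rational vector space with basis `B`,
and `ω` is the period of a Hodge structure of K3 type on it: `q (ω, ω) = 0` and
`q (ω, conj ω) ≠ 0`. -/
structure IsPeriod (q : Matrix B B ℚ) (ω : B → ℂ) : Prop where
  symm : qᵀ = q
  det : q.det ≠ 0
  iso : qf (cQ q) ω ω = 0
  nz : qf (cQ q) ω (cj ω) ≠ 0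

/-- The orthogonal complement of `ω` and its conjugate. -/
def perp (q : Matrix B B ℚ) (ω : B → ℂ) : Submodule ℂ (B → ℂ) where
  carrier := {x | qf (cQ q) x ω = 0 ∧ qf (cQ q) x (cj ω) = 0}
  add_mem' := by
    intro x y hx hy
    refine ⟨?_, ?_⟩
    · rw [qf_add_left, hx.1, hy.1, add_zero]
    · rw [qf_add_left, hx.2, hy.2, add_zero]
  zero_mem' := by
    have h : ∀ z, qf (cQ q) 0 z = 0 := fun z => zero_dotProduct _
    exact ⟨h _, h _⟩
  smul_mem' := by
    intro a x hx
    refine ⟨?_, ?_⟩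
    · rw [qf_smul_left, hx.1, mul_zero]
    · rw [qf_smul_left, hx.2, mul_zero]

open Classical in
/-- The Hodge decomposition of the Hodge structure `T` of K3 type, twisted to weight zero: the
line of `ω` in degree `1`, the line of its conjugate in degree `-1`, and the orthogonal
complement in degree `0`. -/
noncomputable def hodgeT (q : Matrix B B ℚ) (ω : B → ℂ) (p : ℤ) : Submodule ℂ (B → ℂ) :=
  if p = 1 then Submodule.span ℂ {ω} else if p = -1 then Submodule.span ℂ {cj ω}
  else if p = 0 then perp q ω else ⊥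

/-- A rational Hodge structure of weight zero on the vector space with basis `A`. -/
structure IsHodgeStr (H : ℤ → Submodule ℂ (A → ℂ)) : Prop where
  internal : DirectSum.IsInternal H
  conj : ∀ p, ∀ x ∈ H p, cj x ∈ H (-p)

/-- The Hodge filtration. -/
def Fil (H : ℤ → Submodule ℂ (A → ℂ)) (p : ℤ) : Submodule ℂ (A → ℂ) :=
  ⨆ r : ℤ, ⨆ _ : p ≤ r, H r

/-- The Hodge filtration is defined over the subfield `L` of `ℂ`. -/
def DefinedOver (L : Subfield ℂ) (H : ℤ → Submodule ℂ (A → ℂ)) : Prop :=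
  ∀ p, Fil H p ≤ Submodule.span ℂ {x | x ∈ Fil H p ∧ ∀ a, x a ∈ L}

/-- The value of the complex multilinear extension of `f`. -/
noncomputable def valC {n : ℕ} (f : (Fin n → B) → A → ℚ) (x : Fin n → B → ℂ) : A → ℂ :=
  fun a => ∑ J, (f J a : ℂ) * ∏ k, x k (J k)

/-- `f` is a morphism of Hodge structures from the `n`-th tensor power of `T` to `H`; as `T` is dual to
itself by the form, this is a Hodge class in the tensor product of this power and `H`. -/
def IsHodgeClass (T : ℤ → Submodule ℂ (B → ℂ)) (H : ℤ → Submodule ℂ (A → ℂ)) {n : ℕ}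
    (f : (Fin n → B) → A → ℚ) : Prop :=
  ∀ (x : Fin n → B → ℂ) (d : Fin n → ℤ), (∀ k, x k ∈ T (d k)) → valC f x ∈ H (∑ k, d k)

section

variable {n : ℕ}

/-- The coordinate of `f` for the functional `y`. -/
noncomputable def cy (f : (Fin n → B) → A → ℚ) : (A → ℂ) →ₗ[ℂ] ((Fin n → B) → ℂ) where
  toFun y := fun J => ∑ a, y a * (f J a : ℂ)
  map_add' y z := by
    funext J
    simp only [Pi.add_apply, add_mul, Finset.sum_add_distrib]
  map_smul' t y := by
    funext J
    simp only [Pi.smul_apply, smul_eq_mul, RingHom.id_apply, Finset.mul_sum, mul_assoc]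

theorem cy_apply (f : (Fin n → B) → A → ℚ) (y : A → ℂ) (J : Fin n → B) :
    cy f y J = ∑ a, y a * (f J a : ℂ) := rfl

theorem evalF_cy (f : (Fin n → B) → A → ℚ) (y : A → ℂ) (x : Fin n → B → ℂ) :
    evalF (cy f y) x = y ⬝ᵥ valC f x := by
  unfold evalF valC dotProduct
  simp only [cy_apply, Finset.sum_mul, Finset.mul_sum, mul_assoc]
  rw [Finset.sum_comm]

/-- Operators with prescribed eigenvalues on the pieces. -/
theorem exists_op {H : ℤ → Submodule ℂ (A → ℂ)} (hH : DirectSum.IsInternal H) (g : ℤ → ℂ) :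
    ∃ E : (A → ℂ) →ₗ[ℂ] (A → ℂ), ∀ j, ∀ x ∈ H j, E x = g j • x := by
  classical
  let e := LinearEquiv.ofBijective (DirectSum.coeLinearMap H) hH
  refine ⟨(DirectSum.toModule ℂ ℤ (A → ℂ) fun j => g j • (H j).subtype).comp e.symm.toLinearMap, ?_⟩
  intro j x hx
  have h1 : e.symm x = DirectSum.lof ℂ ℤ (fun i => H i) j ⟨x, hx⟩ := by
    rw [LinearEquiv.symm_apply_eq]
    exact (DirectSum.coeLinearMap_lof H j ⟨x, hx⟩).symm
  rw [LinearMap.comp_apply, LinearEquiv.coe_coe, h1, DirectSum.toModule_lof]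
  rfl

/-- The transposed functional. -/
noncomputable def tr (E : (A → ℂ) →ₗ[ℂ] (A → ℂ)) (y : A → ℂ) : A → ℂ :=
  fun a => y ⬝ᵥ E (Pi.single a 1)

theorem tr_dot (E : (A → ℂ) →ₗ[ℂ] (A → ℂ)) (y w : A → ℂ) : tr E y ⬝ᵥ w = y ⬝ᵥ E w := by
  have h1 : w = ∑ a, w a • (Pi.single a (1 : ℂ) : A → ℂ) := by
    funext j
    simp [Finset.sum_apply, Pi.single_apply]
  conv_rhs => rw [h1, map_sum]
  rw [dotProduct_sum]
  change ∑ a, (y ⬝ᵥ E (Pi.single a 1)) * w a = _
  refine Finset.sum_congr rfl fun a _ => ?_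
  rw [map_smul, dotProduct_smul, smul_eq_mul, mul_comm]

theorem fil_stable {H : ℤ → Submodule ℂ (A → ℂ)} {E : (A → ℂ) →ₗ[ℂ] (A → ℂ)} {g : ℤ → ℂ}
    (hE : ∀ j, ∀ x ∈ H j, E x = g j • x) {p : ℤ} {w : A → ℂ} (hw : w ∈ Fil H p) :
    E w ∈ Fil H p := by
  have h : Fil H p ≤ (Fil H p).comap E := by
    refine iSup₂_le fun r hr x hx => ?_
    rw [Submodule.mem_comap, hE r x hx]
    exact Submodule.smul_mem _ _ (Submodule.mem_iSup_of_mem r (Submodule.mem_iSup_of_mem hr hx))
  exact h hw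

theorem fil_kill {H : ℤ → Submodule ℂ (A → ℂ)} {E : (A → ℂ) →ₗ[ℂ] (A → ℂ)} {g : ℤ → ℂ}
    (hE : ∀ j, ∀ x ∈ H j, E x = g j • x) {p : ℤ} (hg : ∀ r, p ≤ r → g r = 0) {w : A → ℂ}
    (hw : w ∈ Fil H p) : E w = 0 := by
  have h : Fil H p ≤ LinearMap.ker E := by
    refine iSup₂_le fun r hr x hx => ?_
    rw [LinearMap.mem_ker, hE r x hx, hg r hr, zero_smul]
  exact h hw

/-- The functionals that vanish on a step of the filtration. -/
def ann (H : ℤ → Submodule ℂ (A → ℂ)) (p : ℤ) : Submodule ℂ (A → ℂ) where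
  carrier := {y | ∀ w ∈ Fil H p, y ⬝ᵥ w = 0}
  add_mem' := by
    intro y z hy hz w hw
    rw [add_dotProduct, hy w hw, hz w hw, add_zero]
  zero_mem' := fun w _ => zero_dotProduct w
  smul_mem' := by
    intro a y hy w hw
    rw [smul_dotProduct, hy w hw, smul_zero]

variable (L : Subfield ℂ)

theorem ann_ex {H : ℤ → Submodule ℂ (A → ℂ)} (hL : DefinedOver L H) (p : ℤ) (σ : ℂ →ₗ[L] L)
    {y : A → ℂ} (hy : y ∈ ann H p) : ex L σ y ∈ ann H p := by
  intro w hw
  have h := hL p hw
  clear hw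
  induction h using Submodule.span_induction with
  | mem w hw =>
    have h1 := hy w hw.1
    have h2 : ex L σ y ⬝ᵥ w = ((σ (y ⬝ᵥ w) : L) : ℂ) := by
      unfold dotProduct
      rw [map_sum]
      push_cast
      refine Finset.sum_congr rfl fun a _ => ?_
      have h3 : y a * w a = (⟨w a, hw.2 a⟩ : L) • y a := by
        rw [Subfield.smul_def, smul_eq_mul, mul_comm]
      rw [h3, map_smul, smul_eq_mul]
      push_cast
      rw [mul_comm]
      rfl
    rw [h2, h1, map_zero]
    rfl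
  | zero => exact dotProduct_zero _
  | add x y _ _ h1 h2 => rw [dotProduct_add, h1, h2, add_zero]
  | smul a x _ h1 => rw [dotProduct_smul, h1, smul_zero]

theorem ratSmul (σ : ℂ →ₗ[L] L) (z : ℂ) (r : ℚ) :
    ((σ (z * (r : ℂ)) : L) : ℂ) = ((σ z : L) : ℂ) * (r : ℂ) := by
  have h3 : z * (r : ℂ) = (r : L) • z := by
    rw [Subfield.smul_def, smul_eq_mul, mul_comm]
    push_cast
    rfl
  rw [h3, map_smul, smul_eq_mul]
  push_cast
  rw [mul_comm]

theorem ex_cy (f : (Fin n → B) → A → ℚ) (σ : ℂ →ₗ[L] L) (y : A → ℂ) :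
    ex L σ (cy f y) = cy f (ex L σ y) := by
  funext J
  rw [cy_apply]
  change ((σ (∑ a, y a * (f J a : ℂ)) : L) : ℂ) = _
  rw [map_sum]
  push_cast
  exact Finset.sum_congr rfl fun a _ => ratSmul L σ _ _

/-- The coordinates of `f` for the functionals vanishing on a step of the filtration. -/
noncomputable def U (f : (Fin n → B) → A → ℚ) (H : ℤ → Submodule ℂ (A → ℂ)) (p : ℤ) :
    Submodule ℂ ((Fin n → B) → ℂ) := (ann H p).map (cy f)

theorem U_ex {f : (Fin n → B) → A → ℚ} {H : ℤ → Submodule ℂ (A → ℂ)} (hL : DefinedOver L H)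
    (p : ℤ) (σ : ℂ →ₗ[L] L) {c : (Fin n → B) → ℂ} (hc : c ∈ U f H p) : ex L σ c ∈ U f H p := by
  obtain ⟨y, hy, rfl⟩ := hc
  rw [ex_cy]
  exact ⟨_, ann_ex L hL p σ hy, rfl⟩

theorem isSo_iff {Q X : Matrix B B ℂ} : IsSo Q X ↔ Xᵀ * Q + Q * X = 0 := by
  have h : ∀ x y, qf Q (X *ᵥ x) y + qf Q x (X *ᵥ y) = x ⬝ᵥ ((Xᵀ * Q + Q * X) *ᵥ y) := by
    intro x y
    unfold qf
    rw [add_mulVec, dotProduct_add, ← mulVec_mulVec, ← mulVec_mulVec,
      Matrix.dotProduct_mulVec x Xᵀ, Matrix.vecMul_transpose]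
  constructor
  · intro h1
    funext i j
    have h2 := h1 (Pi.single i 1) (Pi.single j 1)
    rw [h] at h2
    simpa using h2
  · intro h1 x y
    rw [h, h1, zero_mulVec, dotProduct_zero]

/-- The Lie algebra of the orthogonal matrices which preserve all the spaces `U p`. -/
noncomputable def stab (q : Matrix B B ℚ) (f : (Fin n → B) → A → ℚ)
    (H : ℤ → Submodule ℂ (A → ℂ)) : Submodule ℂ (Matrix B B ℂ) where
  carrier := {X | IsSo (cQ q) X ∧ ∀ p, ∀ c ∈ U f H p, act X c ∈ U f H p}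
  add_mem' := by
    rintro X Y ⟨h1, h2⟩ ⟨h3, h4⟩
    refine ⟨?_, ?_⟩
    · rw [isSo_iff] at h1 h3 ⊢
      rw [transpose_add, add_mul, mul_add, add_add_add_comm, h1, h3, add_zero]
    · intro p c hc
      rw [act_add_left]
      exact Submodule.add_mem _ (h2 p c hc) (h4 p c hc)
  zero_mem' := by
    refine ⟨?_, ?_⟩
    · rw [isSo_iff]
      simp
    · intro p c _
      rw [act_zero_left]
      exact Submodule.zero_mem _
  smul_mem' := by
    rintro a X ⟨h1, h2⟩
    refine ⟨?_, ?_⟩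
    · rw [isSo_iff] at h1 ⊢
      rw [transpose_smul, Matrix.smul_mul, Matrix.mul_smul, ← smul_add, h1, smul_zero]
    · intro p c hc
      rw [act_smul_left]
      exact Submodule.smul_mem _ _ (h2 p c hc)

theorem stab_bracket {q : Matrix B B ℚ} {f : (Fin n → B) → A → ℚ} {H : ℤ → Submodule ℂ (A → ℂ)}
    {X Y : Matrix B B ℂ} (hX : X ∈ stab q f H) (hY : Y ∈ stab q f H) :
    X * Y - Y * X ∈ stab q f H := by
  refine ⟨?_, ?_⟩
  · intro x y
    have e : ∀ x y, qf (cQ q) (X *ᵥ x) y = -qf (cQ q) x (X *ᵥ y) := fun x y =>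
      eq_neg_of_add_eq_zero_left (hX.1 x y)
    have e' : ∀ x y, qf (cQ q) (Y *ᵥ x) y = -qf (cQ q) x (Y *ᵥ y) := fun x y =>
      eq_neg_of_add_eq_zero_left (hY.1 x y)
    rw [sub_mulVec, sub_mulVec, ← mulVec_mulVec, ← mulVec_mulVec, ← mulVec_mulVec, ← mulVec_mulVec,
      qf_sub_left, qf_sub_right, e, e', e', e]
    ring
  · intro p c hc
    rw [← act_comm Y X c]
    exact Submodule.sub_mem _ (hY.2 p _ (hX.2 p c hc)) (hX.2 p _ (hY.2 p c hc))

/-- The action of a matrix as a linear map. -/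
noncomputable def actR (X : Matrix B B ℂ) : ((Fin n → B) → ℂ) →ₗ[ℂ] ((Fin n → B) → ℂ) where
  toFun c := act X c
  map_add' c d := act_add_right X c d
  map_smul' a c := by
    rw [act_smul_right, RingHom.id_apply]

theorem actR_apply (X : Matrix B B ℂ) (c : (Fin n → B) → ℂ) : actR X c = act X c := rfl

theorem stab_rat {q : Matrix B B ℚ} {f : (Fin n → B) → A → ℚ} {H : ℤ → Submodule ℂ (A → ℂ)}
    (hL : DefinedOver L H) (σ : ℂ →ₗ[L] L) {X : Matrix B B ℂ} (hX : X ∈ stab q f H) :
    exM L σ X ∈ stab q f H := by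
  refine ⟨?_, ?_⟩
  · have h1 := hX.1
    rw [isSo_iff] at h1 ⊢
    funext i j
    have h2 := congrFun (congrFun h1 i) j
    simp only [Matrix.add_apply, Matrix.mul_apply, Matrix.transpose_apply, Matrix.zero_apply, cQ]
      at h2 ⊢
    have h3 : (((σ (∑ k, X k i * (q k j : ℂ)) + σ (∑ k, (q i k : ℂ) * X k j)) : L) : ℂ) = 0 := by
      rw [← map_add, h2, map_zero]
      rfl
    rw [← h3, map_sum, map_sum]
    push_cast
    congr 1
    · exact Finset.sum_congr rfl fun k _ => (ratSmul L σ _ _).symm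
    · refine Finset.sum_congr rfl fun k _ => ?_
      have h4 := ratSmul L σ (X k j) (q i k)
      rw [mul_comm (q i k : ℂ) (X k j), h4, mul_comm]
      rfl
  · intro p c hc
    have h1 : ∀ c' : (Fin n → B) → L, act (exM L σ X) (up L c') = ex L σ (act X (up L c')) := by
      intro c'
      funext I
      simp only [act, ex, up, exM]
      rw [map_sum]
      push_cast
      refine Finset.sum_congr rfl fun k _ => ?_
      rw [map_sum]
      push_cast
      refine Finset.sum_congr rfl fun j _ => ?_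
      have h3 : X j (I k) * ((c' (Function.update I k j) : L) : ℂ) =
          (c' (Function.update I k j)) • X j (I k) := by
        rw [Subfield.smul_def, smul_eq_mul, mul_comm]
      rw [h3, map_smul, smul_eq_mul]
      push_cast
      rw [mul_comm]
    have h2 := mem_span_ex L c
    have h3 : Submodule.span ℂ (Set.range fun τ : ℂ →ₗ[L] L => ex L τ c) ≤
        (U f H p).comap (actR (exM L σ X)) := by
      refine Submodule.span_le.2 ?_
      rintro _ ⟨τ, rfl⟩
      rw [SetLike.mem_coe, Submodule.mem_comap, actR_apply]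
      beta_reduce
      rw [ex_eq_up, h1]
      have h4 : ex L τ c ∈ U f H p := U_ex L hL p τ hc
      rw [ex_eq_up] at h4
      exact U_ex L hL p σ (hX.2 p _ h4)
    exact h3 h2

end

end Pool.Agent.Q69.KP
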