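import Pool.Agent.Q69.KP.Main

/-!
# Hodge classes on products with powers of Hodge structures of K3 type (II)
-/

set_option linter.unusedSectionVars false

namespace Pool.Agent.Q69.KP

open Matrix Pool.Agent.W437.HK

variable {A B : Type} [Fintype A] [DecidableEq A] [Fintype B] [DecidableEq B]
  {q : Matrix B B ℚ} {ω : B → ℂ}

theorem cj_cj {I : Type*} (x : I → ℂ) : cj (cj x) = x := by
  funext i
  exact Complex.conj_conj _

theorem cQ_symm (h : qᵀ = q) : (cQ q)ᵀ = cQ q := by
  funext i j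
  have := congrFun (congrFun h i) j
  rw [Matrix.transpose_apply] at this ⊢
  unfold cQ
  rw [this]

theorem cQ_conj (q : Matrix B B ℚ) (i j : B) : starRingEnd ℂ (cQ q i j) = cQ q i j := by
  unfold cQ
  exact map_ratCast _ _

theorem qf_conj (q : Matrix B B ℚ) (x y : B → ℂ) :
    starRingEnd ℂ (qf (cQ q) x y) = qf (cQ q) (cj x) (cj y) := by
  simp only [qf, dotProduct, mulVec, map_sum, map_mul, cQ_conj, cj]

theorem cQ_inj (h : IsPeriod q ω) {x : B → ℂ} (hx : ∀ z, qf (cQ q) z x = 0) : x = 0 := by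
  have h1 : (cQ q) *ᵥ x = 0 := by
    funext i
    have := hx (Pi.single i 1)
    unfold qf at this
    rwa [single_one_dotProduct] at this
  have h2 : (cQ q).det ≠ 0 := by
    have : (cQ q).det = ((q.det : ℚ) : ℂ) := by
      have h3 : cQ q = (algebraMap ℚ ℂ).mapMatrix q := by
        funext i j
        rfl
      rw [h3, ← RingHom.map_det]
      rfl
    rw [this]
    exact_mod_cast h.det
  exact Matrix.eq_zero_of_mulVec_eq_zero h2 h1

section period

variable (h : IsPeriod q ω)

include h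

theorem per_iso' : qf (cQ q) (cj ω) (cj ω) = 0 := by
  rw [← qf_conj, h.iso, map_zero]

theorem per_nz' : qf (cQ q) (cj ω) ω ≠ 0 := by
  rw [qf_symm (cQ_symm h.symm)]
  exact h.nz

/-- Decomposition of vectors. -/
theorem exists_decomp (x : B → ℂ) : ∃ (a b : ℂ) (x0 : B → ℂ), x0 ∈ perp q ω ∧
    x = a • ω + b • cj ω + x0 := by
  refine ⟨qf (cQ q) x (cj ω) / qf (cQ q) ω (cj ω), qf (cQ q) x ω / qf (cQ q) (cj ω) ω,
    x - (qf (cQ q) x (cj ω) / qf (cQ q) ω (cj ω)) • ω - (qf (cQ q) x ω / qf (cQ q) (cj ω) ω) • cj ω,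
    ⟨?_, ?_⟩, by abel⟩
  · rw [qf_sub_left, qf_sub_left, qf_smul_left, qf_smul_left, h.iso,
      div_mul_cancel₀ _ (per_nz' h)]
    ring
  · rw [qf_sub_left, qf_sub_left, qf_smul_left, qf_smul_left, per_iso' h,
      div_mul_cancel₀ _ h.nz]
    ring

theorem hodgeT_span : Submodule.span ℂ {x | ∃ d, x ∈ hodgeT q ω d} = ⊤ := by
  rw [eq_top_iff]
  intro x _
  obtain ⟨a, b, x0, h0, rfl⟩ := exists_decomp h x
  refine Submodule.add_mem _ (Submodule.add_mem _ (Submodule.smul_mem _ _ ?_)
    (Submodule.smul_mem _ _ ?_)) ?_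
  · refine Submodule.subset_span ⟨1, ?_⟩
    unfold hodgeT
    rw [if_pos rfl]
    exact Submodule.mem_span_singleton_self ω
  · refine Submodule.subset_span ⟨-1, ?_⟩
    unfold hodgeT
    rw [if_neg (by norm_num), if_pos rfl]
    exact Submodule.mem_span_singleton_self _
  · refine Submodule.subset_span ⟨0, ?_⟩
    unfold hodgeT
    rw [if_neg (by norm_num), if_neg (by norm_num), if_pos rfl]
    exact h0

/-- The grading operator, up to a factor. -/
theorem wedge_hodgeT {d : ℤ} {x : B → ℂ} (hx : x ∈ hodgeT q ω d) :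
    wedge (cQ q) ω (cj ω) *ᵥ x = (qf (cQ q) ω (cj ω) * d) • x := by
  rw [wedge_mulVec]
  unfold hodgeT at hx
  split_ifs at hx with h1 h2 h3
  · obtain ⟨a, rfl⟩ := Submodule.mem_span_singleton.1 hx
    rw [qf_smul_left, qf_smul_left, h.iso, h1]
    push_cast
    module
  · obtain ⟨a, rfl⟩ := Submodule.mem_span_singleton.1 hx
    rw [qf_smul_left, qf_smul_left, per_iso' h, h2, qf_symm (cQ_symm h.symm) (cj ω) ω]
    push_cast
    module
  · rw [hx.1, hx.2, h3]
    push_cast
    module
  · rw [Submodule.mem_bot] at hx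
    subst hx
    have h0 : ∀ z, qf (cQ q) 0 z = 0 := fun z => zero_dotProduct _
    rw [h0, h0]
    simp

/-- The operators `conj ω ∧ w` lower the degree. -/
theorem lower {w : B → ℂ} (hw : w ∈ perp q ω) {d : ℤ} {x : B → ℂ} (hx : x ∈ hodgeT q ω d) :
    wedge (cQ q) (cj ω) w *ᵥ x ∈ hodgeT q ω (d - 1) := by
  rw [wedge_mulVec]
  have hs := fun x y => qf_symm (cQ_symm h.symm) x y
  unfold hodgeT at hx
  split_ifs at hx with h1 h2 h3
  · obtain ⟨a, rfl⟩ := Submodule.mem_span_singleton.1 hx
    subst h1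
    rw [qf_smul_left, qf_smul_left, hs ω w, hw.1, mul_zero, zero_smul, zero_sub]
    unfold hodgeT
    rw [if_neg (by norm_num), if_neg (by norm_num), if_pos (by norm_num)]
    exact Submodule.neg_mem _ (Submodule.smul_mem _ _ hw)
  · obtain ⟨a, rfl⟩ := Submodule.mem_span_singleton.1 hx
    rw [qf_smul_left, qf_smul_left, hs (cj ω) w, hw.2, per_iso' h]
    simp
  · subst h3
    rw [hx.2, zero_smul, sub_zero]
    unfold hodgeT
    rw [if_neg (by norm_num), if_pos (by norm_num)]
    exact Submodule.smul_mem _ _ (Submodule.mem_span_singleton_self _)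
  · rw [Submodule.mem_bot] at hx
    subst hx
    have h0 : ∀ z, qf (cQ q) 0 z = 0 := fun z => zero_dotProduct _
    rw [h0, h0]
    simp

/-- Two coefficient functions are equal if the forms agree on vectors of pure type. -/
theorem eq_of_pure {n : ℕ} {c : (Fin n → B) → ℂ}
    (hc : ∀ (x : Fin n → B → ℂ) (d : Fin n → ℤ), (∀ k, x k ∈ hodgeT q ω (d k)) → evalF c x = 0) :
    c = 0 := by
  apply eq_zero_of_evalF
  apply evalF_span c _ (hodgeT_span h)
  intro x hx
  choose d hd using hx
  exact hc x d hd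

theorem evalF_actP {n : ℕ} (c : (Fin n → B) → ℂ) {x : Fin n → B → ℂ} {d : Fin n → ℤ}
    (hx : ∀ k, x k ∈ hodgeT q ω (d k)) :
    evalF (act (wedge (cQ q) ω (cj ω)) c) x =
      (qf (cQ q) ω (cj ω) * ((∑ k, d k : ℤ) : ℂ)) * evalF c x := by
  rw [evalF_act]
  push_cast
  rw [Finset.mul_sum, Finset.sum_mul]
  refine Finset.sum_congr rfl fun k _ => ?_
  rw [wedge_hodgeT h (hx k), evalF_update_smul, Function.update_eq_self]

end period

variable {n : ℕ} {H : ℤ → Submodule ℂ (A → ℂ)} {f : (Fin n → B) → A → ℚ}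

/-- The grading operator belongs to the stabiliser. -/
theorem grading_mem (h : IsPeriod q ω) (hH : IsHodgeStr H) (hf : IsHodgeClass (hodgeT q ω) H f) :
    wedge (cQ q) ω (cj ω) ∈ stab q f H := by
  refine ⟨isSo_wedge (cQ_symm h.symm) _ _, ?_⟩
  rintro p _ ⟨y, hy, rfl⟩
  obtain ⟨E, hE⟩ := exists_op hH.internal fun j => qf (cQ q) ω (cj ω) * (j : ℂ)
  refine ⟨tr E y, ?_, ?_⟩
  · intro w hw
    rw [tr_dot]
    exact hy _ (fil_stable hE hw)
  · rw [← sub_eq_zero]
    apply eq_of_pure h
    intro x d hx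
    have h1 : evalF (cy f (tr E y) - act (wedge (cQ q) ω (cj ω)) (cy f y)) x =
        evalF (cy f (tr E y)) x - evalF (act (wedge (cQ q) ω (cj ω)) (cy f y)) x := by
      simp only [evalF, Pi.sub_apply, sub_mul, Finset.sum_sub_distrib]
    rw [h1, evalF_actP h _ hx, evalF_cy, evalF_cy, tr_dot, hE _ _ (hf x d hx), dotProduct_smul,
      smul_eq_mul, sub_self]

variable (L : Subfield ℂ)

/-- Subspaces over `L` stable under the grading operator are trivial. -/
theorem rat_stable (h : IsPeriod q ω) (hconj : ∀ z ∈ L, starRingEnd ℂ z ∈ L)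
    (hlin : LinearIndependent L ω) (N : Submodule ℂ (B → ℂ))
    (hr : ∀ σ, ∀ x ∈ N, ex L σ x ∈ N)
    (hP : ∀ x ∈ N, wedge (cQ q) ω (cj ω) *ᵥ x ∈ N) : N = ⊥ ∨ N = ⊤ := by
  classical
  have hs := fun x y => qf_symm (cQ_symm h.symm) x y
  have hrel : ∀ l : B → L, (∑ i, ((l i : L) : ℂ) * ω i = 0) → l = 0 := by
    intro l hl
    have := Fintype.linearIndependent_iff.1 hlin l (by
      rw [← hl]
      exact Finset.sum_congr rfl fun i _ => rfl)
    exact funext this
  by_contra hc
  push Not at hc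
  obtain ⟨hb, ht⟩ := hc
  -- a nonzero vector with entries in `L`
  obtain ⟨x, hx, hx0⟩ := Submodule.exists_mem_ne_zero_of_ne_bot hb
  obtain ⟨σ, hσ⟩ : ∃ σ : ℂ →ₗ[L] L, ex L σ x ≠ 0 := by
    by_contra hc
    push Not at hc
    apply hx0
    have h1 := mem_span_ex L x
    have h2 : Submodule.span ℂ (Set.range fun σ : ℂ →ₗ[L] L => ex L σ x) ≤ ⊥ := by
      refine Submodule.span_le.2 ?_
      rintro _ ⟨σ, rfl⟩
      exact hc σ
    exact (Submodule.mem_bot ℂ).1 (h2 h1)
  have hxN := hr σ x hx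
  set x1 := ex L σ x with hx1
  by_cases hq : qf (cQ q) x1 (cj ω) = 0
  · apply hσ
    -- the conjugate vector gives a relation
    have h1 : qf (cQ q) ω (cj x1) = 0 := by
      rw [hs]
      have := qf_conj q x1 (cj ω)
      rw [hq, map_zero, cj_cj] at this
      exact this.symm
    have hmem : ∀ i, (cQ q *ᵥ cj x1) i ∈ L := by
      intro i
      unfold mulVec dotProduct
      refine L.sum_mem fun j _ => L.mul_mem ?_ (hconj _ ?_)
      · exact SubfieldClass.ratCast_mem L _
      · exact (σ (x j)).2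
    have h2 := hrel (fun i => ⟨(cQ q *ᵥ cj x1) i, hmem i⟩) (by
      rw [← h1]
      unfold qf dotProduct
      exact Finset.sum_congr rfl fun i _ => mul_comm _ _)
    have h3 : cQ q *ᵥ cj x1 = 0 := by
      funext i
      exact congrArg Subtype.val (congrFun h2 i)
    have h4 : cj x1 = 0 := by
      apply cQ_inj h
      intro z
      unfold qf
      rw [h3, dotProduct_zero]
    rw [← cj_cj x1, h4]
    funext i
    simp [cj]
  · -- `ω` belongs to `N`
    have hωN : ω ∈ N := by
      have h1 := hP _ hxN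
      rw [wedge_mulVec] at h1
      have h2 := hP _ h1
      rw [mulVec_sub, mulVec_smul, mulVec_smul, wedge_mulVec, wedge_mulVec, h.iso,
        per_iso' h, hs (cj ω) ω] at h2
      have h3 := N.add_mem (N.smul_mem (qf (cQ q) ω (cj ω)) h1) h2
      have h4 : (2 * qf (cQ q) ω (cj ω) * qf (cQ q) x1 (cj ω)) • ω ∈ N := by
        convert h3 using 1
        module
      have h5 := N.smul_mem (2 * qf (cQ q) ω (cj ω) * qf (cQ q) x1 (cj ω))⁻¹ h4
      rwa [smul_smul, inv_mul_cancel₀ (mul_ne_zero (mul_ne_zero two_ne_zero h.nz) hq), one_smul]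
        at h5
    -- a functional over `L` that vanishes on `N`
    obtain ⟨v, hv⟩ : ∃ v, v ∉ N := by
      by_contra hc
      push Not at hc
      exact ht (eq_top_iff.2 fun x _ => hc x)
    obtain ⟨φ, hφ1, hφ2⟩ := Submodule.exists_le_ker_of_notMem hv
    set lam : B → ℂ := fun i => φ (Pi.single i 1) with hlam
    have hφ : ∀ x, φ x = lam ⬝ᵥ x := by
      intro x
      have h1 : x = ∑ i, x i • (Pi.single i (1 : ℂ) : B → ℂ) := by
        funext j
        simp [Finset.sum_apply, Pi.single_apply]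
      conv_lhs => rw [h1, map_sum]
      unfold dotProduct
      refine Finset.sum_congr rfl fun i _ => ?_
      rw [map_smul, smul_eq_mul, mul_comm]
    have hlamN : ∀ x ∈ N, lam ⬝ᵥ x = 0 := fun x hx => by
      rw [← hφ]
      exact hφ2 hx
    obtain ⟨τ, hτ⟩ : ∃ τ : ℂ →ₗ[L] L, ex L τ lam ≠ 0 := by
      by_contra hc
      push Not at hc
      apply hφ1
      have h1 := mem_span_ex L lam
      have h2 : Submodule.span ℂ (Set.range fun σ : ℂ →ₗ[L] L => ex L σ lam) ≤ ⊥ := by
        refine Submodule.span_le.2 ?_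
        rintro _ ⟨σ, rfl⟩
        exact hc σ
      rw [hφ, (Submodule.mem_bot ℂ).1 (h2 h1), zero_dotProduct]
    have h6 : ex L τ lam ⬝ᵥ ω = 0 := by
      have h7 : Submodule.span ℂ (Set.range fun ρ : ℂ →ₗ[L] L => ex L ρ ω) ≤
          LinearMap.ker (Matrix.mulVecLin (Matrix.of fun _ : Unit => ex L τ lam)) := by
        refine Submodule.span_le.2 ?_
        rintro _ ⟨ρ, rfl⟩
        rw [SetLike.mem_coe, LinearMap.mem_ker, Matrix.mulVecLin_apply]
        funext u
        change ex L τ lam ⬝ᵥ ex L ρ ω = 0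
        have h8 := hlamN _ (hr ρ _ hωN)
        have h9 : ex L τ lam ⬝ᵥ ex L ρ ω = ((τ (lam ⬝ᵥ ex L ρ ω) : L) : ℂ) := by
          unfold dotProduct
          rw [map_sum]
          push_cast
          refine Finset.sum_congr rfl fun a _ => ?_
          have h3 : lam a * ex L ρ ω a = (ρ (ω a)) • lam a := by
            rw [Subfield.smul_def, smul_eq_mul, mul_comm]
            rfl
          rw [h3, map_smul, smul_eq_mul]
          push_cast
          rw [mul_comm]
          rfl
        rw [h9, h8, map_zero]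
        rfl
      have h8 := h7 (mem_span_ex L ω)
      rw [LinearMap.mem_ker, Matrix.mulVecLin_apply] at h8
      exact congrFun h8 ()
    apply hτ
    have h7 := hrel (fun i => τ (lam i)) h6
    funext i
    exact congrArg Subtype.val (congrFun h7 i)

variable [IsAlgClosed L]

/-- The stabiliser contains all `ω ∧ w` and `conj ω ∧ w`. -/
theorem wedge_mem (h : IsPeriod q ω) (hconj : ∀ z ∈ L, starRingEnd ℂ z ∈ L)
    (hlin : LinearIndependent L ω) (hH : IsHodgeStr H) (hL : DefinedOver L H)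
    (hf : IsHodgeClass (hodgeT q ω) H f) (w : B → ℂ) :
    wedge (cQ q) (cj ω) w ∈ stab q f H := by
  have hP := grading_mem h hH hf
  have hirr : ∀ N : Submodule ℂ (B → ℂ), (∀ X ∈ stab q f H, ∀ x ∈ N, X *ᵥ x ∈ N) →
      N = ⊥ ∨ N = ⊤ := fun N hN => irred L (stab q f H)
    (fun σ X hX => stab_rat L hL σ hX)
    (fun N hr hs => rat_stable L h hconj hlin N hr fun x hx => hs _ hP x hx) N hN
  refine zarhin (𝔥 := stab q f H) (cQ_symm h.symm) (fun X hX => hX.1) (fun X hX Y hY => stab_bracket hX hY)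
    (per_iso' h) h.iso (per_nz' h) ?_ hirr w
  rw [wedge_swap]
  exact Submodule.neg_mem _ hP

/-- The operators `conj ω ∧ w` kill the class. -/
theorem kill_low (h : IsPeriod q ω) (hconj : ∀ z ∈ L, starRingEnd ℂ z ∈ L)
    (hlin : LinearIndependent L ω) (hH : IsHodgeStr H) (hL : DefinedOver L H)
    (hf : IsHodgeClass (hodgeT q ω) H f) {w : B → ℂ} (hw : w ∈ perp q ω) (y : A → ℂ) :
    act (wedge (cQ q) (cj ω) w) (cy f y) = 0 := by
  have hR := wedge_mem L h hconj hlin hH hL hf w
  apply eq_of_pure h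
  intro x d hx
  set m : ℤ := ∑ k, d k - 1 with hm
  -- the values are of pure type
  have hv : ∀ k, valC f (Function.update x k (wedge (cQ q) (cj ω) w *ᵥ x k)) ∈ H m := by
    intro k
    have h1 := hf (Function.update x k (wedge (cQ q) (cj ω) w *ᵥ x k))
      (Function.update d k (d k - 1)) (by
        intro l
        by_cases hl : l = k
        · subst hl
          rw [Function.update_self, Function.update_self]
          exact lower h hw (hx l)
        · rw [Function.update_of_ne hl, Function.update_of_ne hl]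
          exact hx l)
    have h2 : ∑ l, Function.update d k (d k - 1) l = m := by
      rw [hm, ← Finset.add_sum_erase _ _ (Finset.mem_univ k), Function.update_self,
        ← Finset.add_sum_erase _ (fun l => d l) (Finset.mem_univ k)]
      have h3 : ∑ l ∈ Finset.univ.erase k, Function.update d k (d k - 1) l =
          ∑ l ∈ Finset.univ.erase k, d l :=
        Finset.sum_congr rfl fun l hl => Function.update_of_ne (Finset.ne_of_mem_erase hl) _ _
      rw [h3]
      ring
    rwa [h2] at h1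
  obtain ⟨E, hE⟩ := exists_op hH.internal fun j => if j = m then 1 else 0
  have hkey : ∀ z : A → ℂ, evalF (act (wedge (cQ q) (cj ω) w) (cy f z)) x =
      z ⬝ᵥ ∑ k, valC f (Function.update x k (wedge (cQ q) (cj ω) w *ᵥ x k)) := by
    intro z
    rw [evalF_act, dotProduct_sum]
    exact Finset.sum_congr rfl fun k _ => evalF_cy f z _
  have h1 : evalF (act (wedge (cQ q) (cj ω) w) (cy f (tr E y))) x =
      evalF (act (wedge (cQ q) (cj ω) w) (cy f y)) x := by
    rw [hkey, hkey, tr_dot, hE m _ ((H m).sum_mem fun k _ => hv k), if_pos rfl, one_smul]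
  rw [← h1]
  have h2 : tr E y ∈ ann H (m + 1) := by
    intro v hv'
    rw [tr_dot, fil_kill hE (fun r hr => if_neg (by omega)) hv', dotProduct_zero]
  obtain ⟨z, hz, hz2⟩ := hR.2 (m + 1) _ ⟨_, h2, rfl⟩
  rw [← hz2, evalF_cy]
  refine hz _ ?_
  have h3 := hf x d hx
  refine Submodule.mem_iSup_of_mem (∑ k, d k) (Submodule.mem_iSup_of_mem ?_ h3)
  omega

theorem act_conj (X : Matrix B B ℂ) (c : (Fin n → B) → ℂ) :
    cj (act X c) = act (fun i j => starRingEnd ℂ (X i j)) (cj c) := by
  funext I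
  simp only [act, cj, map_sum, map_mul]

theorem cy_conj (f : (Fin n → B) → A → ℚ) (y : A → ℂ) : cj (cy f y) = cy f (cj y) := by
  funext J
  simp only [cj, cy_apply, map_sum, map_mul]
  refine Finset.sum_congr rfl fun a _ => ?_
  rw [map_ratCast]

theorem wedge_conj (q : Matrix B B ℚ) (a b : B → ℂ) :
    (fun i j => starRingEnd ℂ (wedge (cQ q) a b i j)) = wedge (cQ q) (cj a) (cj b) := by
  funext i j
  simp only [wedge, Matrix.sub_apply, vecMulVec_apply, map_sub, map_mul, mulVec, dotProduct,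
    map_sum, cQ_conj, cj]

/-- All operators `a ∧ b` kill the class. -/
theorem kill_all (h : IsPeriod q ω) (h3 : 3 ≤ Fintype.card B)
    (hconj : ∀ z ∈ L, starRingEnd ℂ z ∈ L)
    (hlin : LinearIndependent L ω) (hH : IsHodgeStr H) (hL : DefinedOver L H)
    (hf : IsHodgeClass (hodgeT q ω) H f) (a b : B → ℂ) (y : A → ℂ) :
    act (wedge (cQ q) a b) (cy f y) = 0 := by
  have hs := fun x y => qf_symm (cQ_symm h.symm) x y
  have hlow : ∀ w ∈ perp q ω, act (wedge (cQ q) (cj ω) w) (cy f y) = 0 := fun w hw =>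
    kill_low L h hconj hlin hH hL hf hw y
  have hhigh : ∀ w ∈ perp q ω, act (wedge (cQ q) ω w) (cy f y) = 0 := by
    intro w hw
    have hw' : cj w ∈ perp q ω := by
      refine ⟨?_, ?_⟩
      · have := qf_conj q w (cj ω)
        rw [hw.2, map_zero, cj_cj] at this
        exact this.symm
      · have := qf_conj q w ω
        rw [hw.1, map_zero] at this
        exact this.symm
    have h1 := kill_low L h hconj hlin hH hL hf hw' (cj y)
    have h2 := congrArg cj h1
    rw [act_conj, wedge_conj, cj_cj, cj_cj, cy_conj, cj_cj] at h2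
    rw [h2]
    funext I
    simp [cj]
  let K : Submodule ℂ (Matrix B B ℂ) := LinearMap.ker (actL (cy f y))
  have hK : ∀ X, X ∈ K ↔ act X (cy f y) = 0 := fun X => Iff.rfl
  have hso : ∀ a b, IsSo (cQ q) (wedge (cQ q) a b) := isSo_wedge (cQ_symm h.symm)
  -- the bracket of the two families
  have hbr : ∀ v ∈ perp q ω, ∀ w ∈ perp q ω,
      (-qf (cQ q) (cj ω) ω) • wedge (cQ q) v w + qf (cQ q) w v • wedge (cQ q) (cj ω) ω ∈ K := by
    intro v hv w hw
    have h1 := act_bracket (hhigh v hv) (hlow w hw)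
    rw [bracket_wedge (hso _ _), wedge_mulVec, wedge_mulVec, hs (cj ω) v, hv.2, zero_smul, zero_sub,
      hw.1, zero_smul, sub_zero, ← neg_smul, wedge_smul_left, wedge_smul_right] at h1
    exact h1
  -- a vector which is not isotropic
  obtain ⟨v, hv, hvv⟩ : ∃ v ∈ perp q ω, qf (cQ q) v v ≠ 0 := by
    by_contra hc
    push Not at hc
    let g : (B → ℂ) →ₗ[ℂ] (Fin 2 → ℂ) :=
      { toFun := fun x => ![qf (cQ q) x ω, qf (cQ q) x (cj ω)]
        map_add' := by
          intro x y
          rw [qf_add_left, qf_add_left]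
          funext i
          fin_cases i <;> rfl
        map_smul' := by
          intro t x
          rw [qf_smul_left, qf_smul_left]
          funext i
          fin_cases i <;> rfl }
    have hk : LinearMap.ker g ≠ ⊥ := by
      apply LinearMap.ker_ne_bot_of_finrank_lt
      rw [Module.finrank_fin_fun, Module.finrank_fintype_fun_eq_card]
      omega
    obtain ⟨v, hv, hv0⟩ := Submodule.exists_mem_ne_zero_of_ne_bot hk
    have hvp : v ∈ perp q ω := ⟨congrFun hv 0, congrFun hv 1⟩
    apply hv0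
    apply cQ_inj h
    intro z
    obtain ⟨a, b, z0, hz0, rfl⟩ := exists_decomp h z
    rw [qf_add_left, qf_add_left, qf_smul_left, qf_smul_left, hs ω v, hs (cj ω) v, hvp.1, hvp.2,
      mul_zero, mul_zero, zero_add, zero_add]
    have h1 := hc _ (Submodule.add_mem _ hz0 hvp)
    rw [qf_add_left, qf_add_right, qf_add_right, hc _ hz0, hc _ hvp, hs v z0, zero_add,
      add_zero] at h1
    have h2 : (2 : ℂ) * qf (cQ q) z0 v = 0 := by rw [two_mul]; exact h1
    exact (mul_eq_zero.1 h2).resolve_left two_ne_zero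
  have hP : wedge (cQ q) (cj ω) ω ∈ K := by
    have h1 := hbr v hv v hv
    rw [wedge_self, smul_zero, zero_add] at h1
    have h2 := K.smul_mem (qf (cQ q) v v)⁻¹ h1
    rwa [smul_smul, inv_mul_cancel₀ hvv, one_smul] at h2
  have hperp : ∀ v ∈ perp q ω, ∀ w ∈ perp q ω, wedge (cQ q) v w ∈ K := by
    intro v hv w hw
    have h1 := K.sub_mem (hbr v hv w hw) (K.smul_mem (qf (cQ q) w v) hP)
    rw [add_sub_cancel_right] at h1
    have h2 := K.smul_mem (-qf (cQ q) (cj ω) ω)⁻¹ h1
    rwa [smul_smul, inv_mul_cancel₀ (neg_ne_zero.2 (per_nz' h)), one_smul] at h2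
  have hneg : ∀ a b, wedge (cQ q) a b ∈ K → wedge (cQ q) b a ∈ K := by
    intro a b hab
    rw [wedge_swap]
    exact K.neg_mem hab
  have hω : ∀ b, wedge (cQ q) ω b ∈ K := by
    intro b
    obtain ⟨s, t, b0, hb0, rfl⟩ := exists_decomp h b
    rw [wedge_add_right, wedge_add_right, wedge_smul_right, wedge_smul_right, wedge_self, smul_zero,
      zero_add]
    exact K.add_mem (K.smul_mem _ (hneg _ _ hP)) (hhigh _ hb0)
  have hω' : ∀ b, wedge (cQ q) (cj ω) b ∈ K := by
    intro b
    obtain ⟨s, t, b0, hb0, rfl⟩ := exists_decomp h b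
    rw [wedge_add_right, wedge_add_right, wedge_smul_right, wedge_smul_right, wedge_self, smul_zero,
      add_zero]
    exact K.add_mem (K.smul_mem _ hP) (hlow _ hb0)
  obtain ⟨s, t, a0, ha0, rfl⟩ := exists_decomp h a
  obtain ⟨s', t', b0, hb0, rfl⟩ := exists_decomp h b
  have hres : wedge (cQ q) (s • ω + t • cj ω + a0) (s' • ω + t' • cj ω + b0) ∈ K := by
    rw [wedge_add_left, wedge_add_left, wedge_smul_left, wedge_smul_left]
    refine K.add_mem (K.add_mem (K.smul_mem _ (hω _)) (K.smul_mem _ (hω' _))) ?_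
    rw [wedge_add_right, wedge_add_right, wedge_smul_right, wedge_smul_right]
    exact K.add_mem (K.add_mem (K.smul_mem _ (hneg _ _ (hω _))) (K.smul_mem _ (hneg _ _ (hω' _))))
      (hperp _ ha0 _ hb0)
  exact hres

end Pool.Agent.Q69.KP
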